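import Pool.Agent.W_5d512e_flt.Defs

/-!
# An iterated transducer with a sparse letter
-/

set_option autoImplicit false

namespace Pool.Agent.W_5d512e_flt

open Pool.Agent.W_MP_5d512e_h33 Pool.Agent.W_5d512e_h80 Pool.Agent.W_5d512e_alt
  Pool.Agent.W_MP_5d512e_dic

namespace Tow

/-- The letters. -/
inductive Lt | a | h | t | b | o | p
  deriving DecidableEq, Fintype

/-- The states. -/
inductive St | N | S | F
  deriving DecidableEq, Fintype

open Lt St

/-- The next state. -/
def dl : St → Lt → St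
  | _, .a => S
  | N, .h => F
  | N, .t => F
  | _, .h => N
  | _, .t => N
  | s, .b => s
  | s, .o => s
  | N, .p => S
  | s, .p => s

/-- The output. -/
def ou : St → Lt → List Lt
  | _, .a => [a, h, b]
  | N, .h => [t, b]
  | N, .t => [t, b]
  | _, .h => [h]
  | _, .t => [h]
  | F, .b => [p]
  | _, .b => [b, b]
  | _, .o => [o]
  | N, .p => [o]
  | _, .p => [p]

/-- The transducer. -/
def Y : Sys St Lt where
  δ := dl
  out := ou
  q0 := S
  a := a
  u := [h, b]
  hne := by intro q x; cases q <;> cases x <;> simp [ou]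
  ha := rfl
  hu := by simp

/-- The rows. -/
def R (x : Lt) (j c i l : ℕ) : List Lt :=
  x :: (List.replicate j b ++ (List.replicate c o ++ (List.replicate i p ++ List.replicate l o)))

lemma length_R (x : Lt) (j c i l : ℕ) : (R x j c i l).length = 1 + j + c + i + l := by
  simp only [R, List.length_cons, List.length_append, List.length_replicate]
  omega

lemma run_b (s : St) (hs : s ≠ F) (j : ℕ) :
    run dl ou s (List.replicate j b) = (s, List.replicate (2 * j) b) := by
  induction j with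
  | zero => rfl
  | succ j ih =>
    rw [List.replicate_succ, run_cons]
    have h1 : dl s b = s := by cases s <;> rfl
    have h2 : ou s b = [b, b] := by
      cases s with
      | N => rfl
      | S => rfl
      | F => exact absurd rfl hs
    rw [h1, h2, ih, show 2 * (j + 1) = (2 * j + 1) + 1 by ring, List.replicate_succ,
      List.replicate_succ]
    rfl

lemma run_bF (j : ℕ) : run dl ou F (List.replicate j b) = (F, List.replicate j p) := by
  induction j with
  | zero => rfl
  | succ j ih =>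
    rw [List.replicate_succ, run_cons]
    have h1 : dl F b = F := rfl
    have h2 : ou F b = [p] := rfl
    rw [h1, h2, ih, List.replicate_succ]
    rfl

lemma run_o (s : St) (j : ℕ) :
    run dl ou s (List.replicate j o) = (s, List.replicate j o) := by
  induction j with
  | zero => rfl
  | succ j ih =>
    rw [List.replicate_succ, run_cons]
    have h1 : dl s o = s := by cases s <;> rfl
    have h2 : ou s o = [o] := by cases s <;> rfl
    rw [h1, h2, ih]
    rfl

lemma run_pS (j : ℕ) : run dl ou S (List.replicate j p) = (S, List.replicate j p) := by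
  induction j with
  | zero => rfl
  | succ j ih =>
    rw [List.replicate_succ, run_cons]
    have h1 : dl S p = S := rfl
    have h2 : ou S p = [p] := rfl
    rw [h1, h2, ih]
    rfl

lemma rep_snoc (c : ℕ) (X : List Lt) :
    List.replicate (c + 1) o ++ X = List.replicate c o ++ (o :: X) := by
  rw [List.replicate_succ', List.append_assoc]
  rfl

/-- A normal row with pending letters. -/
lemma rowA (s : St) (hs : s ≠ N) (x : Lt) (hx : x = h ∨ x = t) (j c i l : ℕ) :
    run dl ou s (R x j c (i + 1) l) = (S, R h (2 * j) (c + 1) i l) := by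
  have h1 : dl s x = N := by rcases hx with rfl | rfl <;> cases s <;> first | rfl | exact absurd rfl hs
  have h2 : ou s x = [h] := by rcases hx with rfl | rfl <;> cases s <;> first | rfl | exact absurd rfl hs
  have e1 : dl N p = S := rfl
  have e2 : ou N p = [o] := rfl
  unfold R
  rw [run_cons, h1, h2, run_append, run_b N (by simp), run_append, run_o, List.replicate_succ,
    List.cons_append, run_cons, e1, e2, run_append, run_pS, run_o, rep_snoc]
  rfl

/-- A normal row without pending letters. -/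
lemma rowB (s : St) (hs : s ≠ N) (x : Lt) (hx : x = h ∨ x = t) (j c l : ℕ) :
    run dl ou s (R x j c 0 l) = (N, R h (2 * j) c 0 l) := by
  have h1 : dl s x = N := by rcases hx with rfl | rfl <;> cases s <;> first | rfl | exact absurd rfl hs
  have h2 : ou s x = [h] := by rcases hx with rfl | rfl <;> cases s <;> first | rfl | exact absurd rfl hs
  unfold R
  rw [run_cons, h1, h2, run_append, run_b N (by simp), run_append, run_o, List.replicate_zero,
    List.nil_append, run_o]
  rfl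

/-- The row at the end of a phase. -/
lemma rowC (x : Lt) (hx : x = h ∨ x = t) (j c l : ℕ) :
    run dl ou N (R x j c 0 l) = (F, R t 1 0 j (c + l)) := by
  have h1 : dl N x = F := by rcases hx with rfl | rfl <;> rfl
  have h2 : ou N x = [t, b] := by rcases hx with rfl | rfl <;> rfl
  unfold R
  rw [run_cons, h1, h2, run_append, run_bF, run_append, run_o, List.replicate_zero,
    List.nil_append, run_o]
  simp only [List.replicate_zero, List.nil_append, List.replicate_one, List.replicate_add]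
  rfl

/-- One row of the queue process. -/
lemma adv {n : ℕ} {s s' : St} {r r' T : List Lt} (hn : Y.st n = (s, r, T))
    (hr : run dl ou s r = (s', r')) : Y.st (n + r.length) = (s', r', T ++ r') := by
  have h1 := seq_add Y.δ Y.out n r.length (Y.δ Y.q0 Y.a, Y.u, Y.a :: Y.u)
  have h2 : seq Y.δ Y.out n (Y.δ Y.q0 Y.a, Y.u, Y.a :: Y.u) = (s, r, T) := hn
  have h3 := read_block Y.δ Y.out r s [] T
  rw [List.append_nil, List.nil_append] at h3
  have h4 : run Y.δ Y.out s r = (s', r') := hr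
  rw [h4] at h3
  show seq Y.δ Y.out (n + r.length) (Y.δ Y.q0 Y.a, Y.u, Y.a :: Y.u) = _
  rw [h1, h2, h3]

lemma not_t (x : Lt) (hx : x ≠ t) (j c i l : ℕ) : ∀ y ∈ R x j c i l, y ≠ t := by
  intro y hy
  simp only [R, List.mem_cons, List.mem_append, List.mem_replicate] at hy
  rcases hy with rfl | ⟨-, rfl⟩ | ⟨-, rfl⟩ | ⟨-, rfl⟩ | ⟨-, rfl⟩
  · exact hx
  all_goals simp

/-- All pending letters are used up. -/
lemma sub (i : ℕ) : ∀ (s : St) (x : Lt) (j c l n : ℕ) (T : List Lt), s ≠ N → (x = h ∨ x = t) →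
    Y.st n = (s, R x j c i l, T) → ∃ (n' : ℕ) (mid : List Lt) (s' : St) (x' : Lt), s' ≠ N ∧
      (x' = h ∨ x' = t) ∧ Y.st n' = (s', R x' (2 ^ i * j) (c + i) 0 l, T ++ mid) ∧
      (∀ y ∈ mid, y ≠ t) ∧ mid.length ≤ i * (1 + 2 ^ i * j + c + i + l) := by
  induction i with
  | zero =>
    intro s x j c l n T hs hx hn
    exact ⟨n, [], s, x, hs, hx, by simpa using hn, by simp, by simp⟩
  | succ i ih =>
    intro s x j c l n T hs hx hn
    have h1 := adv hn (rowA s hs x hx j c i l)
    obtain ⟨n', mid, s', x', e1, e2, e3, e4, e5⟩ := ih S h (2 * j) (c + 1) l _ _ (by simp)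
      (Or.inl rfl) h1
    refine ⟨n', R h (2 * j) (c + 1) i l ++ mid, s', x', e1, e2, ?_, ?_, ?_⟩
    · rw [e3, List.append_assoc]
      have a1 : 2 ^ i * (2 * j) = 2 ^ (i + 1) * j := by ring
      have a2 : c + 1 + i = c + (i + 1) := by ring
      rw [a1, a2]
    · intro y hy
      rcases List.mem_append.1 hy with hy | hy
      · exact not_t h (by simp) _ _ _ _ y hy
      · exact e4 y hy
    · rw [List.length_append, length_R]
      have a1 : 2 ^ i * (2 * j) = 2 ^ (i + 1) * j := by ring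
      rw [a1] at e5
      have a3 : 2 * j ≤ 2 ^ (i + 1) * j := by
        have : 1 ≤ 2 ^ i := Nat.one_le_two_pow
        calc 2 * j = 2 * (1 * j) := by ring
          _ ≤ 2 * (2 ^ i * j) := by gcongr
          _ = 2 ^ (i + 1) * j := by ring
      nlinarith

/-- One phase. -/
lemma phase {n m l : ℕ} {T : List Lt} (hn : Y.st n = (F, R t 1 0 m l, T)) :
    ∃ (n' : ℕ) (mid : List Lt),
      Y.st n' = (F, R t 1 0 (2 ^ (m + 1)) (m + l), T ++ mid ++ R t 1 0 (2 ^ (m + 1)) (m + l)) ∧
      (∀ y ∈ mid, y ≠ t) ∧ 2 ^ (m + 1) ≤ mid.length ∧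
      mid.length ≤ (m + 1) * (1 + 2 ^ (m + 1) + m + l) := by
  obtain ⟨n1, mid, s', x', e1, e2, e3, e4, e5⟩ := sub m F t 1 0 l n T (by simp) (Or.inr rfl) hn
  rw [mul_one, zero_add] at e3
  have h1 := adv e3 (rowB s' e1 x' e2 (2 ^ m) m l)
  have a0 : 2 * 2 ^ m = 2 ^ (m + 1) := by ring
  rw [a0] at h1
  have h2 := adv h1 (rowC h (Or.inl rfl) (2 ^ (m + 1)) m l)
  refine ⟨_, mid ++ R h (2 ^ (m + 1)) m 0 l, by rw [h2]; simp only [List.append_assoc], ?_, ?_, ?_⟩
  · intro y hy
    rcases List.mem_append.1 hy with hy | hy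
    · exact e4 y hy
    · exact not_t h (by simp) _ _ _ _ y hy
  · rw [List.length_append, length_R]
    omega
  · rw [List.length_append, length_R]
    have a1 : 2 ^ m * 1 ≤ 2 ^ (m + 1) := by
      rw [mul_one]; exact Nat.pow_le_pow_right (by omega) (by omega)
    nlinarith

/-- The invariant at the beginning of a phase. -/
def Inv (n m l : ℕ) (T0 : List Lt) : Prop :=
  Y.st n = (F, R t 1 0 m l, T0 ++ R t 1 0 m l) ∧ l ≤ 2 * m ∧ m ≤ T0.length ∧
    (T0 ++ R t 1 0 m l).length ≤ 8 * (m + 1) ^ 2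

lemma inv_zero : ∃ n T0, Inv n 2 0 T0 := by
  have h0 : Y.st 0 = (S, R h 1 0 0 0, [a, h, b]) := rfl
  have h1 := adv h0 (rowB S (by simp) h (Or.inl rfl) 1 0 0)
  have h2 := adv h1 (rowC h (Or.inl rfl) (2 * 1) 0 0)
  refine ⟨_, [a, h, b] ++ R h (2 * 1) 0 0 0, h2, by omega, ?_, ?_⟩
  · simp [R]
  · simp [R]

lemma inv_succ {n m l : ℕ} {T0 : List Lt} (hI : Inv n m l T0) :
    ∃ n' T0', Inv n' (2 ^ (m + 1)) (m + l) T0' := by
  obtain ⟨h1, h2, h3, h4⟩ := hI
  obtain ⟨n', mid, e1, e2, e3, e4⟩ := phase h1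
  have hm : m + 1 < 2 ^ (m + 1) := Nat.lt_two_pow_self
  have hm2 : 2 * (m + 1) ≤ 2 ^ (m + 1) := by
    have : m + 1 ≤ 2 ^ m := Nat.lt_two_pow_self
    rw [pow_succ]
    omega
  refine ⟨n', T0 ++ R t 1 0 m l ++ mid, e1, by omega, ?_, ?_⟩
  · rw [List.length_append]
    omega
  · rw [List.length_append, List.length_append, length_R]
    generalize 2 ^ (m + 1) = M at *
    have h5 : (m + 1) * (1 + M + m + l) ≤ (m + 1) * (3 * M) := by
      apply Nat.mul_le_mul_left
      omega
    have h6 : (m + 1) * (3 * M) * 2 ≤ 3 * M * M := by nlinarith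
    have h7 : 8 * (m + 1) ^ 2 ≤ 2 * M * M := by nlinarith
    nlinarith

lemma inv_large (M : ℕ) : ∃ n m l T0, M ≤ m ∧ Inv n m l T0 := by
  induction M with
  | zero =>
    obtain ⟨n, T0, h⟩ := inv_zero
    exact ⟨n, 2, 0, T0, by omega, h⟩
  | succ M ih =>
    obtain ⟨n, m, l, T0, h1, h2⟩ := ih
    obtain ⟨n', T0', h3⟩ := inv_succ h2
    have hm : m + 1 < 2 ^ (m + 1) := Nat.lt_two_pow_self
    exact ⟨n', _, _, T0', by omega, h3⟩

lemma ev (C : ℕ) : ∃ M, ∀ m, M ≤ m → C * (8 * (m + 1) ^ 2 + 1) ^ C < 2 ^ (m + 1) := by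
  have h1 := tendsto_pow_const_div_const_pow_of_one_lt (2 * C) (show (1 : ℝ) < 2 by norm_num)
  have h2 := (h1.comp (Filter.tendsto_add_atTop_nat 1)).eventually
    (gt_mem_nhds (show (0 : ℝ) < 1 / ((C : ℝ) * 9 ^ C + 1) by positivity))
  obtain ⟨M, hM⟩ := Filter.eventually_atTop.1 h2
  refine ⟨M, fun m hm => ?_⟩
  have h3 := hM m hm
  simp only [Function.comp] at h3
  rw [div_lt_div_iff₀ (by positivity) (by positivity), one_mul] at h3
  have h4 : (8 * (m + 1) ^ 2 + 1) ^ C ≤ 9 ^ C * (m + 1) ^ (2 * C) := by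
    rw [pow_mul, ← mul_pow]
    apply Nat.pow_le_pow_left
    have : 1 ≤ (m + 1) ^ 2 := Nat.one_le_pow _ _ (by omega)
    omega
  have h5 : C * (8 * (m + 1) ^ 2 + 1) ^ C ≤ (C * 9 ^ C + 1) * (m + 1) ^ (2 * C) := by
    calc C * (8 * (m + 1) ^ 2 + 1) ^ C ≤ C * (9 ^ C * (m + 1) ^ (2 * C)) :=
          Nat.mul_le_mul_left _ h4
      _ = C * 9 ^ C * (m + 1) ^ (2 * C) := by ring
      _ ≤ _ := Nat.mul_le_mul_right _ (by omega)
  have h6 : (m + 1) ^ (2 * C) * (C * 9 ^ C + 1) < 2 ^ (m + 1) := by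
    have := h3
    exact_mod_cast this
  calc C * (8 * (m + 1) ^ 2 + 1) ^ C ≤ (C * 9 ^ C + 1) * (m + 1) ^ (2 * C) := h5
    _ = (m + 1) ^ (2 * C) * (C * 9 ^ C + 1) := by ring
    _ < 2 ^ (m + 1) := h6

lemma lim_of_T {n : ℕ} {s : St} {r T0 X T1 : List Lt} (hn : Y.st n = (s, r, T0 ++ X ++ T1))
    (i : ℕ) (hi : i < X.length) : Y.lim (T0.length + i) = X[i] := by
  have h1 : Y.T n = T0 ++ X ++ T1 := by rw [Sys.T, hn]
  have h2 : T0.length + i < (Y.T n).length := by
    rw [h1, List.length_append, List.length_append]; omega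
  rw [← Y.T_getElem h2]
  simp only [h1]
  rw [List.getElem_append_left (by rw [List.length_append]; omega), List.getElem_append_right (by omega)]
  simp

lemma sparse : (∀ N : ℕ, ∃ i, N ≤ i ∧ Y.lim i = t) ∧
    ∀ C : ℕ, ∃ N : ℕ, ∀ i, N ≤ i → i ≤ C * (N + 1) ^ C → Y.lim i ≠ t := by
  constructor
  · intro N
    obtain ⟨n, m, l, T0, h1, h2, h3, h4, h5⟩ := inv_large N
    refine ⟨T0.length, by omega, ?_⟩
    have h6 : Y.st n = (F, R t 1 0 m l, T0 ++ R t 1 0 m l ++ []) := by rw [h2, List.append_nil]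
    have h7 := lim_of_T h6 0 (by rw [length_R]; omega)
    rw [Nat.add_zero] at h7
    rw [h7]
    rfl
  · intro C
    obtain ⟨M, hM⟩ := ev C
    obtain ⟨n, m, l, T0, h1, h2, h3, h4, h5⟩ := inv_large M
    obtain ⟨n', mid, e1, e2, e3, e4⟩ := phase h2
    refine ⟨(T0 ++ R t 1 0 m l).length, fun i hi1 hi2 => ?_⟩
    have h6 := hM m h1
    have h7 : C * ((T0 ++ R t 1 0 m l).length + 1) ^ C ≤ C * (8 * (m + 1) ^ 2 + 1) ^ C :=
      Nat.mul_le_mul_left _ (Nat.pow_le_pow_left (by omega) _)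
    obtain ⟨k, rfl⟩ : ∃ k, i = (T0 ++ R t 1 0 m l).length + k :=
      ⟨i - (T0 ++ R t 1 0 m l).length, by omega⟩
    have h8 : k < mid.length := by omega
    rw [lim_of_T e1 k h8]
    exact e2 _ (List.getElem_mem h8)

end Tow

/-- LEAF T. -/
theorem hasSparse83 : HasSparse := by
  obtain ⟨p, D, e, Z, hZ⟩ := sys_fin Tow.Y
  refine ⟨p, D, Z, e Tow.Lt.t, ?_, ?_⟩
  · intro N
    obtain ⟨i, h1, h2⟩ := Tow.sparse.1 N
    exact ⟨i, h1, by rw [hZ]; simp only [h2]⟩
  · intro C
    obtain ⟨N, h1⟩ := Tow.sparse.2 C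
    refine ⟨N, fun i h2 h3 h4 => h1 i h2 h3 ?_⟩
    rw [hZ] at h4
    exact e.injective h4

end Pool.Agent.W_5d512e_flt
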