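import Pool.Agent.W_5d512e_flt.Gap73
import Pool.Agent.W_5d512e_flt.Tower83
import Pool.Agent.W_5d512e_post.Final

/-!
# Words of sequential circuits with simple gates: gaps of the letters
-/

set_option autoImplicit false

namespace Pool.Agent.W_5d512e_flt

open Pool.Agent.W_MP_5d512e_h33 Pool.Agent.W_5d512e_h80 Pool.Agent.W_5d512e_alt
  Pool.Agent.W_5d512e_post Pool.Agent.W_5d512e_h57

section arr

variable {N : ℕ} {ty : Fin N → Prop} {F : Fin N → (Fin N → Bool) → Bool} {b : Fin N → Bool}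
  {v : ℕ → ℕ → Fin N → Bool}

/-- The projection `(p', p, J, j') ↦ (p', p, J)`. -/
def pr3 : ℕ × ℕ × ℕ × ℕ →+ ℕ × ℕ × ℕ where
  toFun y := (y.1, y.2.1, y.2.2.1)
  map_zero' := rfl
  map_add' _ _ := rfl

/-- The map `(p', p, J, j') ↦ (p, j' + J)`. -/
def im2 : ℕ × ℕ × ℕ × ℕ →+ ℕ × ℕ where
  toFun y := (y.2.1, y.2.2.2 + y.2.2.1)
  map_zero' := rfl
  map_add' x y := by
    refine Prod.ext rfl ?_
    show (x.2.2.2 + y.2.2.2) + (x.2.2.1 + y.2.2.1) =
      (x.2.2.2 + x.2.2.1) + (y.2.2.2 + y.2.2.1)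
    omega

/-- The first coordinate. -/
def co1 : ℕ × ℕ × ℕ × ℕ →+ ℕ where
  toFun y := y.1
  map_zero' := rfl
  map_add' _ _ := rfl

/-- The last coordinate. -/
def co4 : ℕ × ℕ × ℕ × ℕ →+ ℕ where
  toFun y := y.2.2.2
  map_zero' := rfl
  map_add' _ _ := rfl

theorem semi_coord (c : ℕ × ℕ × ℕ × ℕ →+ ℕ) (P Q R : Prop) :
    IsSemilinearSet {y : ℕ × ℕ × ℕ × ℕ | R ∧ ((c y = 0 ∧ P) ∨ (1 ≤ c y ∧ Q))} := by
  classical
  have h0 : IsSemilinearSet {y : ℕ × ℕ × ℕ × ℕ | c y = 0} :=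
    (IsSemilinearSet.singleton (0 : ℕ)).preimage c
  have h1 : IsSemilinearSet {y : ℕ × ℕ × ℕ × ℕ | 1 ≤ c y} := by
    have h := h0.compl
    convert h using 1
    ext y
    simp only [Set.mem_ofPred_eq, Set.mem_compl_iff]
    omega
  by_cases hR : R
  · have e : {y : ℕ × ℕ × ℕ × ℕ | R ∧ ((c y = 0 ∧ P) ∨ (1 ≤ c y ∧ Q))} =
        {y | c y = 0 ∧ P} ∪ {y | 1 ≤ c y ∧ Q} := by
      ext y
      simp [hR]
    rw [e]
    refine IsSemilinearSet.union ?_ ?_
    · by_cases hP : P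
      · simpa [hP] using h0
      · simp [hP]
    · by_cases hQ : Q
      · simpa [hQ] using h1
      · simp [hQ]
  · simp [hR]

theorem semi_src (i : Fin N) :
    IsSemilinearSet {y : ℕ × ℕ × ℕ × ℕ | Src ty F b i y.1 y.2.2.2} := by
  have h := (semi_coord co1 (b i = true) (F i (fun _ => false) = true) (ty i)).union
    (semi_coord co4 (b i = true) (F i (fun _ => false) = true) (¬ ty i))
  exact h

theorem semi_or (h : IsArr ty F b v) (hF : ∀ k, PresOr (F k)) (k : Fin N) :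
    IsSemilinearSet {x : ℕ × ℕ | v x.1 x.2 k = true} := by
  have hs : IsSemilinearSet (⋃ i : Fin N, im2 ''
      (pr3 ⁻¹' {x : ℕ × ℕ × ℕ | Rch (Ust ty F) (Dst ty F) i k x.1 x.2.1 x.2.2} ∩
        {y : ℕ × ℕ × ℕ × ℕ | Src ty F b i y.1 y.2.2.2})) := by
    refine IsSemilinearSet.iUnion (fun i => IsSemilinearSet.image ?_ im2)
    exact ((isSemilinearSet_rch _ _ i k).preimage pr3).inter (semi_src i)
  convert hs using 1
  ext x
  obtain ⟨p, j⟩ := x
  show v p j k = true ↔ _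
  rw [arr_iff h hF, Set.mem_iUnion]
  constructor
  · rintro ⟨i, p', j', J, hR, hj, hS⟩
    refine ⟨i, (p', p, J, j'), ⟨hR, hS⟩, ?_⟩
    show (p, j' + J) = (p, j)
    rw [hj]
  · rintro ⟨i, ⟨p', p1, J, j'⟩, ⟨hR, hS⟩, he⟩
    have he1 : p1 = p := congrArg Prod.fst he
    have he2 : j' + J = j := congrArg Prod.snd he
    subst he1
    exact ⟨i, p', j', J, hR, he2.symm, hS⟩

theorem semi_and (h : IsArr ty F b v) (hF : ∀ k, PresAnd (F k)) (k : Fin N) :
    IsSemilinearSet {x : ℕ × ℕ | v x.1 x.2 k = true} := by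
  have h' : IsArr ty (fun k z => !(F k (fun i => !(z i)))) (fun k => !(b k))
      (fun p j k => !(v p j k)) := by
    refine ⟨?_, ?_, ?_, ?_⟩
    · intro k hk j
      show (!(v 0 j k)) = !(b k)
      rw [h.x0 k hk j]
    · intro k hk p j
      show (!(v (p + 1) j k)) = !(F k (fun i => !(!(v p j i))))
      simp only [Bool.not_not]
      rw [h.x1 k hk p j]
    · intro k hk p
      show (!(v p 0 k)) = !(b k)
      rw [h.s0 k hk p]
    · intro k hk p j
      show (!(v p (j + 1) k)) = !(F k (fun i => !(!(v (p + 1) j i))))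
      simp only [Bool.not_not]
      rw [h.s1 k hk p j]
  have hF' : ∀ k, PresOr (fun z : Fin N → Bool => !(F k (fun i => !(z i)))) := by
    intro k x y
    show (!(F k (fun i => !(x i || y i)))) = ((!(F k (fun i => !(x i)))) || (!(F k (fun i => !(y i)))))
    have e : (fun i => !(x i || y i)) = (fun i => (!(x i)) && (!(y i))) := by
      funext i
      exact Bool.not_or _ _
    rw [e, hF k, Bool.not_and]
  convert (semi_or h' hF' k).compl using 1
  ext x
  show v x.1 x.2 k = true ↔ ¬ ((!(v x.1 x.2 k)) = true)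
  simp

/-- The sets of positions of a vector, from the sets of positions of its coordinates. -/
theorem semi_vec {l : ℕ} {u : ℕ → ℕ → Fin l → Bool}
    (h : ∀ k, IsSemilinearSet {x : ℕ × ℕ | u x.1 x.2 k = true}) (z : Fin l → Bool) :
    IsSemilinearSet {x : ℕ × ℕ | u x.1 x.2 = z} := by
  have e : {x : ℕ × ℕ | u x.1 x.2 = z} = ⋂ k : Fin l, {x : ℕ × ℕ | u x.1 x.2 k = z k} := by
    ext x
    simp only [Set.mem_iInter]
    exact funext_iff
  rw [e]
  refine IsSemilinearSet.iInter fun k => ?_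
  cases hz : z k with
  | true => exact h k
  | false =>
    convert (h k).compl using 1
    ext x
    show u x.1 x.2 k = false ↔ ¬ (u x.1 x.2 k = true)
    simp

theorem gp_aff (h : IsArr ty F b v) (hF : ∀ k, Affine (F k)) {l : ℕ} (e : Fin l → Fin N)
    (z : Fin l → Bool) : Gp {x : ℕ × ℕ | (fun k => v x.1 x.2 (e k)) = z} := by
  classical
  obtain ⟨ty', A, b', v', hL, he⟩ := lin_of_arr h hF
  have h1 : ∀ k : Fin l, FinKer
      (PowerSeries.mk fun p => PowerSeries.mk fun j => v' p j (Fin.castSucc (e k)) : BS) :=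
    fun k => finKer_of_algebraic (linArr_alg hL (Fin.castSucc (e k)))
  choose Φ hfin hmem hcl using h1
  set G : (Fin l → BS) → Set (ℕ × ℕ) :=
    fun H => {x | ∀ k, (co (H k) x.1 x.2 = 1 ↔ z k = true)} with hG
  refine gp_dec (Φ := G '' (Set.pi Set.univ Φ)) ((Set.Finite.pi' hfin |>.subset ?_).image G) ?_ ?_
  · intro H hH k
    exact hH k (Set.mem_univ k)
  · rintro _ ⟨H, hH, rfl⟩ r hr s hs
    refine ⟨fun k => cart r s (H k), fun k _ => hcl k _ (hH k (Set.mem_univ k)) r hr s hs, ?_⟩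
    ext x
    show (∀ k, (co (cart r s (H k)) x.1 x.2 = 1 ↔ z k = true)) ↔
      (∀ k, (co (H k) (2 * x.1 + r) (2 * x.2 + s) = 1 ↔ z k = true))
    simp only [co_cart]
  · refine ⟨_, fun k _ => hmem k, ?_⟩
    ext x
    show (∀ k, (co _ x.1 x.2 = 1 ↔ z k = true)) ↔ (fun k => v x.1 x.2 (e k)) = z
    have h2 : ∀ k, (co (PowerSeries.mk fun p => PowerSeries.mk fun j =>
        v' p j (Fin.castSucc (e k)) : BS) x.1 x.2 = 1 ↔ v x.1 x.2 (e k) = true) := by
      intro k
      rw [he]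
      simp [co]
    constructor
    · intro hx
      funext k
      have h3 := (h2 k).symm.trans (hx k)
      show v x.1 x.2 (e k) = z k
      cases hv : v x.1 x.2 (e k) <;> cases hz : z k <;> simp_all
    · rintro hx k
      rw [h2 k, ← hx]

end arr

/-- The positions of the words `wordOf`. -/
theorem gap_wordOf {Γ : Type} [Finite Γ] {d : ℕ} (a m : Fin d) (L : Γ → Fin d)
    (x : ℕ → ℕ → Γ) (hx : ∀ z : Γ, Gp {y : ℕ × ℕ | x y.1 y.2 = z}) (P : Fin d → Prop)
    (hinf : ∀ B : ℕ, ∃ j, B ≤ j ∧ P (wordOf a m L x j)) :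
    ∃ K : ℕ, ∀ N : ℕ, ∃ j, N ≤ j ∧ j ≤ K * (N + 1) ^ K ∧ P (wordOf a m L x j) := by
  classical
  by_cases hm : P m
  · refine ⟨2, fun N => ⟨kp N 0 + 1, ?_, ?_, ?_⟩⟩
    · have := left_le_kp N 0
      omega
    · have := kp_le N 0
      have h2 : 1 ≤ (N + 1) ^ 2 := Nat.one_le_pow _ _ (by omega)
      have h3 : N + 0 + 1 = N + 1 := by omega
      rw [h3] at this
      omega
    · show P (if (ku (kp N 0)).2 = 0 then m else _)
      rw [ku_kp]
      exact hm
  · -- an infinite class of vectors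
    have h1 : ∃ z, P (L z) ∧ {y : ℕ × ℕ | x y.1 y.2 = z}.Infinite := by
      by_contra hcon
      push Not at hcon
      have h2 : (⋃ z ∈ {z | P (L z)}, {y : ℕ × ℕ | x y.1 y.2 = z}).Finite :=
        Set.Finite.biUnion (Set.toFinite _) fun z hz => hcon z hz
      obtain ⟨M, hM⟩ := (h2.image fun y : ℕ × ℕ => y.1 + y.2).bddAbove
      obtain ⟨j, hj, hPj⟩ := hinf ((M + 1 + 1 + 1) ^ 2 + 2)
      obtain ⟨t, rfl⟩ : ∃ t, j = t + 1 := ⟨j - 1, by omega⟩
      have h3 : P (if (ku t).2 = 0 then m else L (x ((ku t).2 - 1) (ku t).1)) := hPj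
      by_cases h4 : (ku t).2 = 0
      · rw [if_pos h4] at h3
        exact hm h3
      · rw [if_neg h4] at h3
        have h5 : ((ku t).2 - 1) + (ku t).1 ≤ M := by
          refine hM ⟨((ku t).2 - 1, (ku t).1), ?_, rfl⟩
          simp only [Set.mem_iUnion]
          exact ⟨_, h3, rfl⟩
        have h6 := kp_le (ku t).1 (ku t).2
        rw [kp_ku] at h6
        have h7 : ((ku t).1 + (ku t).2 + 1) ^ 2 ≤ (M + 1 + 1 + 1) ^ 2 :=
          Nat.pow_le_pow_left (by omega) 2
        omega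
    obtain ⟨z, hz, hzi⟩ := h1
    obtain ⟨K, hK⟩ := hx z hzi
    refine ⟨(K + 3) ^ 2 + 2, fun N => ?_⟩
    obtain ⟨⟨p, j⟩, hy, hy1, hy2⟩ := hK N
    simp only at hy1 hy2
    refine ⟨kp j (p + 1) + 1, ?_, ?_, ?_⟩
    · have h2 := le_tri (j + (p + 1))
      have h3 : kp j (p + 1) = tri (j + (p + 1)) + j := rfl
      omega
    · have h2 := kp_le j (p + 1)
      have h3 : (j + (p + 1) + 1) ^ 2 ≤ ((K + 2) * (N + 1)) ^ 2 := by
        refine Nat.pow_le_pow_left ?_ 2
        have : (K + 2) * (N + 1) = K * (N + 1) + 2 * (N + 1) := by ring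
        omega
      have h4 : ((K + 2) * (N + 1)) ^ 2 = (K + 2) ^ 2 * (N + 1) ^ 2 := by ring
      have h5 : 1 ≤ (N + 1) ^ 2 := Nat.one_le_pow _ _ (by omega)
      have h6 : (K + 2) ^ 2 + 1 ≤ (K + 3) ^ 2 + 2 := by nlinarith
      have h7 : (N + 1) ^ 2 ≤ (N + 1) ^ ((K + 3) ^ 2 + 2) :=
        Nat.pow_le_pow_right (by omega) (by omega)
      calc kp j (p + 1) + 1 ≤ (K + 2) ^ 2 * (N + 1) ^ 2 + (N + 1) ^ 2 := by omega
        _ = ((K + 2) ^ 2 + 1) * (N + 1) ^ 2 := by ring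
        _ ≤ ((K + 3) ^ 2 + 2) * (N + 1) ^ ((K + 3) ^ 2 + 2) := Nat.mul_le_mul h6 h7
    · show P (if (ku (kp j (p + 1))).2 = 0 then m else
        L (x ((ku (kp j (p + 1))).2 - 1) (ku (kp j (p + 1))).1))
      rw [ku_kp]
      show P (if p + 1 = 0 then m else L (x (p + 1 - 1) j))
      rw [if_neg (by omega), Nat.add_sub_cancel]
      have h2 : x p j = z := hy
      rw [h2]
      exact hz

/-- In a word of a sequential circuit with simple gates, every infinite class of letters has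
polynomial gaps. -/
theorem gap_easy {B : ∀ n : ℕ, Set ((Fin n → Bool) → Bool)} (hB : Easy B) {D p : ℕ}
    {δ : Fin p → Fin D → Fin p} {q0 : Fin p} {out : Fin p → Fin D → List (Fin D)} {a : Fin D}
    {W : ℕ → Fin D} (hI : Iterates δ q0 out a W) (hC : Circuit B δ q0 out a)
    (P : Fin D → Prop) (hinf : ∀ B : ℕ, ∃ j, B ≤ j ∧ P (W j)) :
    ∃ K : ℕ, ∀ N : ℕ, ∃ j, N ≤ j ∧ j ≤ K * (N + 1) ^ K ∧ P (W j) := by
  obtain ⟨k, l, f, g, c, y, S, L, m, hM, hf, hg⟩ := hC
  obtain ⟨s, x, hR⟩ := exists_run f g c y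
  have hW := eq_wordOf hM hR hI
  rw [hW] at hinf ⊢
  refine gap_wordOf a m L x (fun z => ?_) P hinf
  have hA := isArr_of_run hR
  have hT := term_append hf hg
  rcases hB with hB | hB | hB
  · have := gp_aff hA (fun i => (hT i).affine hB) (Fin.natAdd k) z
    simpa only [Fin.append_right] using this
  · refine gp_semi (semi_vec (fun i => ?_) z)
    have := semi_and hA (fun i => (hT i).presAnd hB) (Fin.natAdd k i)
    simpa only [Fin.append_right] using this
  · refine gp_semi (semi_vec (fun i => ?_) z)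
    have := semi_or hA (fun i => (hT i).presOr hB) (Fin.natAdd k i)
    simpa only [Fin.append_right] using this

/-- Some polynomial-time word is for no `B` of the three simple kinds a filter of a word of a
sequential circuit over `B`. -/
theorem gate_easy : ∃ (d : ℕ) (w : ℕ → Fin d), PolyTime w ∧
    ∀ B : ∀ n : ℕ, Set ((Fin n → Bool) → Bool), Easy B →
      ¬ ∃ (D p : ℕ) (δ : Fin p → Fin D → Fin p) (q0 : Fin p)
        (out : Fin p → Fin D → List (Fin D)) (a : Fin D) (W : ℕ → Fin D),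
        Iterates δ q0 out a W ∧ Circuit B δ q0 out a ∧ FilterOf W w := by
  obtain ⟨p, d, Y, x, hx⟩ := hasSparse83
  refine ⟨d, Y.lim, polyTime_lim Y, ?_⟩
  rintro B hB ⟨D, p', δ, q0, out, a, W, hI, hC, hF⟩
  exact noSparse_of_gap (gap_easy hB hI hC) hF hx

end Pool.Agent.W_5d512e_flt
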