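import Pool.Agent.W_5d512e_alt.P2
import Pool.Agent.W_MP_5d512e_dic.Easy

/-!
# The dichotomy by state actions, for filters: definitions and frozen statements (seat 83)
-/

set_option autoImplicit false

namespace Pool.Agent.W_5d512e_flt

open Pool.Agent.W_MP_5d512e_h33 Pool.Agent.W_5d512e_h80 Pool.Agent.W_5d512e_alt
  Pool.Agent.W_MP_5d512e_dic

/-- `w` is a morphic word: a letter-to-letter image of an infinite word generated by iterating a
non-erasing morphism `g` on a letter (a dgsm with one state). -/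
def Morphic {d : ℕ} (w : ℕ → Fin d) : Prop :=
  ∃ (m : ℕ) (g : Fin m → List (Fin m)) (a : Fin m) (ω : ℕ → Fin m) (c : Fin m → Fin d),
    Iterates (fun (_ : Fin 1) (_ : Fin m) => (0 : Fin 1)) 0 (fun _ x => g x) a ω ∧
      ∀ n, w n = c (ω n)

/-- LEAF E (seat 83): the easy side. -/
def EasyM : Prop := ∀ (p : ℕ) (F : Set (Fin p → Fin p)), (∀ f ∈ F, ∀ g ∈ F, f ∘ g ∈ F) →
  ¬ HasReset F → ¬ HasSwap F → ∀ (d : ℕ) (Y : Sys (Fin p) (Fin d)),
    (∀ x, (fun s => Y.δ s x) ∈ F) → Morphic Y.lim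

/-- LEAF R (seat 80): the hard side, as a filter. -/
def HardF : Prop := ∀ (p k : ℕ) (F : Set (Fin p → Fin p)), HasReset F ∨ HasSwap F →
  ∀ (p' d : ℕ) (Y : Sys (Fin p') (Fin d)), ∃ (D : ℕ) (Z : Sys (Fin p) (Fin D)),
    (∀ x, (fun s => Z.δ s x) ∈ F) ∧ (∀ s x, (Z.out s x).length ≤ 2) ∧
      (∃ C, ∀ i, Z.K i ^ (k + 1) ≤ C * (i + 1)) ∧ FilterOf Z.lim Y.lim

/-- The letter `x` occurs infinitely often in `w`, with gaps that no polynomial bounds. -/
def Sparse {d : ℕ} (w : ℕ → Fin d) (x : Fin d) : Prop :=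
  (∀ N : ℕ, ∃ i, N ≤ i ∧ w i = x) ∧
    ∀ C : ℕ, ∃ N : ℕ, ∀ i, N ≤ i → i ≤ C * (N + 1) ^ C → w i ≠ x

/-- LEAF M (seat 73): filters of morphic words have no sparse letter. -/
def NoSparse : Prop := ∀ (D d : ℕ) (W : ℕ → Fin D) (w : ℕ → Fin d) (x : Fin d), Morphic W →
  FilterOf W w → ¬ Sparse w x

/-- LEAF T (seat 29): a dgsm word with a sparse letter. -/
def HasSparse : Prop := ∃ (p d : ℕ) (Y : Sys (Fin p) (Fin d)) (x : Fin d), Sparse Y.lim x

end Pool.Agent.W_5d512e_flt
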