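import Pool.Agent.W_5d512e_flt.Defs

/-!
# On the easy side all words are morphic
-/

set_option autoImplicit false

namespace Pool.Agent.W_5d512e_flt

open Pool.Agent.W_MP_5d512e_h33 Pool.Agent.W_5d512e_h80 Pool.Agent.W_5d512e_alt
  Pool.Agent.W_MP_5d512e_dic

section

variable {m : ℕ} (H : Fin m → List (Fin m)) (ω : ℕ → Fin m) (f : ℕ → ℕ)

lemma flatMap_blk (hmono : Monotone f)
    (h : ∀ i, H (ω i) = blk ω (f i) (f (i + 1) - f i)) (n a : ℕ) :
    (blk ω a n).flatMap H = blk ω (f a) (f (a + n) - f a) := by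
  induction n generalizing a with
  | zero => simp [blk]
  | succ n ih =>
    rw [blk, List.flatMap_cons, ih (a + 1), h a]
    have m1 := hmono (by omega : a ≤ a + 1)
    have m2 := hmono (by omega : a + 1 ≤ a + 1 + n)
    have e1 : f (a + 1) = f a + (f (a + 1) - f a) := by omega
    have e2 : blk ω (f (a + 1)) (f (a + 1 + n) - f (a + 1)) =
        blk ω (f a + (f (a + 1) - f a)) (f (a + 1 + n) - f (a + 1)) := by rw [← e1]
    rw [e2, ← blk_append, show a + (n + 1) = a + 1 + n by ring]
    congr 1
    omega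

lemma trans_oneE (u : List (Fin m)) :
    Pool.Agent.W_MP_5d512e_h33.trans (fun (_ : Fin 1) (_ : Fin m) => (0 : Fin 1)) 0
      (fun _ x => H x) u = u.flatMap H := by
  have key : ∀ (u : List (Fin m)) (q : Fin 1) (acc : List (Fin m)),
      (List.foldl (fun (acc : Fin 1 × List (Fin m)) (x : Fin m) =>
        ((0 : Fin 1), acc.2 ++ H x)) (q, acc) u).2 = acc ++ u.flatMap H := by
    intro u
    induction u with
    | nil => intro q acc; simp
    | cons x u ih =>
      intro q acc
      rw [List.foldl_cons, ih, List.flatMap_cons, List.append_assoc]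
  have := key u 0 []
  rw [List.nil_append] at this
  exact this

/-- Words that are fixed by a morphism, block by block, are generated by iterating it. -/
theorem iterates_of_blk (hne : ∀ x, H x ≠ []) (f0 : f 0 = 0) (f1 : ∀ n, 1 ≤ n → n + 1 ≤ f n)
    (hmono : Monotone f) (h : ∀ i, H (ω i) = blk ω (f i) (f (i + 1) - f i)) :
    Iterates (fun (_ : Fin 1) (_ : Fin m) => (0 : Fin 1)) 0 (fun _ x => H x) (ω 0) ω := by
  have hit : ∀ n, (Pool.Agent.W_MP_5d512e_h33.trans (fun (_ : Fin 1) (_ : Fin m) => (0 : Fin 1)) 0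
      (fun _ x => H x))^[n] [ω 0] = blk ω 0 (f^[n] 1) := by
    intro n
    induction n with
    | zero => simp [blk]
    | succ n ih =>
      rw [Function.iterate_succ_apply', ih, trans_oneE, flatMap_blk H ω f hmono h,
        Function.iterate_succ_apply', f0, Nat.sub_zero, zero_add]
  have hlen : ∀ n, n + 1 ≤ f^[n] 1 := by
    intro n
    induction n with
    | zero => exact le_rfl
    | succ n ih =>
      rw [Function.iterate_succ_apply']
      have := f1 (f^[n] 1) (by omega)
      omega
  refine ⟨fun _ x => hne x, ?_, fun N => ⟨N, ?_⟩, ?_⟩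
  · have h1 := hit 1
    rw [Function.iterate_one, Function.iterate_one] at h1
    rw [h1]
    have h2 := f1 1 le_rfl
    obtain ⟨k, hk⟩ : ∃ k, f 1 = 1 + k := ⟨f 1 - 1, by omega⟩
    rw [hk, blk_append]
    exact ⟨blk ω (0 + 1) k, rfl⟩
  · rw [hit, length_blk]
    have := hlen N
    omega
  · intro n i hi
    have h1 : ((Pool.Agent.W_MP_5d512e_h33.trans (fun (_ : Fin 1) (_ : Fin m) => (0 : Fin 1)) 0
      (fun _ x => H x))^[n] [ω 0])[i]? = some (ω i) := by
      rw [hit n] at hi ⊢
      rw [length_blk] at hi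
      rw [blk_get ω 0 _ i hi, zero_add]
    rw [List.getElem?_eq_getElem hi] at h1
    exact Option.some.inj h1

end

section

variable {p d : ℕ} {F : Set (Fin p → Fin p)} (Y : Sys (Fin p) (Fin d))

theorem easyM_aux (hF : ∀ f ∈ F, ∀ g ∈ F, f ∘ g ∈ F) (hact : ∀ x, (fun s => Y.δ s x) ∈ F)
    (hR : ¬ HasReset F) (hH : ¬ HasSwap F) : Morphic Y.lim := by
  classical
  obtain ⟨i0, h0⟩ := exists_rec Y.sq
  set n := p * p + 1 with hn
  -- windows
  let win : ℕ → (Fin n → Fin d) := fun i k => Y.lim (i + k)
  have hwin : ∀ i, List.ofFn (win i) = blk Y.lim i n := by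
    intro i
    have : List.ofFn (win i) = blk Y.lim i (List.ofFn (win i)).length := by
      apply eq_blk
      intro k hk
      rw [List.getElem?_eq_getElem hk, List.getElem_ofFn]
    rw [List.length_ofFn] at this
    exact this
  have hdet : ∀ i j, i0 ≤ i → i0 ≤ j → win i = win j → Y.sq i = Y.sq j := by
    intro i j hi hj hw
    apply state_det Y hF hact hR hH h0 hi hj
    rw [← hwin, ← hwin, hw]
  let Γ := Fin i0 ⊕ (Fin n → Fin d)
  let ω : ℕ → Γ := fun i => if h : i < i0 then Sum.inl ⟨i, h⟩ else Sum.inr (win i)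
  let σ : (Fin n → Fin d) → Fin p := fun u =>
    if h : ∃ i, i0 ≤ i ∧ win i = u then Y.sq h.choose else Y.q0
  have hσ : ∀ i, i0 ≤ i → σ (win i) = Y.sq i := by
    intro i hi
    have h : ∃ j, i0 ≤ j ∧ win j = win i := ⟨i, hi, rfl⟩
    simp only [σ, dif_pos h]
    exact hdet _ _ h.choose_spec.1 hi h.choose_spec.2
  have hn0 : 0 < n := by omega
  let H : Γ → List Γ := fun x =>
    match x with
    | Sum.inl i => blk ω (Y.fo i) (Y.fo (i + 1) - Y.fo i)
    | Sum.inr u => blk (fun k => Sum.inr (fun t : Fin n =>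
        ((run Y.δ Y.out (σ u) (List.ofFn u)).2[k + t]?).getD Y.a)) 0
          (Y.out (σ u) (u ⟨0, hn0⟩)).length
  let c : Γ → Fin d := fun x =>
    match x with
    | Sum.inl i => Y.lim i
    | Sum.inr u => u ⟨0, hn0⟩
  have hc : ∀ i, c (ω i) = Y.lim i := by
    intro i
    by_cases h : i < i0
    · simp only [ω, dif_pos h, c]
    · simp only [ω, dif_neg h, c, win, add_zero]
  have hH' : ∀ i, H (ω i) = blk ω (Y.fo i) (Y.fo (i + 1) - Y.fo i) := by
    intro i
    by_cases h : i < i0
    · simp only [ω, dif_pos h, H]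
    · have hi : i0 ≤ i := by omega
      have e1 : ω i = Sum.inr (win i) := by simp only [ω, dif_neg h]
      rw [e1]
      simp only [H]
      rw [hσ i hi]
      have e2 : win i ⟨0, hn0⟩ = Y.lim i := by simp [win]
      rw [e2, Y.out_blk i, length_blk, hwin, (Y.run_blk i n).1]
      simp only
      have hge := Y.fo_le (by omega : i + 1 ≤ i + n)
      have hge' := Y.fo_le (Nat.zero_le i)
      apply List.ext_getElem?
      intro k
      by_cases hk : k < Y.fo (i + 1) - Y.fo i
      · rw [blk_get _ _ _ _ hk, blk_get _ _ _ _ hk, zero_add]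
        have e3 : ¬ (Y.fo i + k < i0) := by omega
        have e4 : ω (Y.fo i + k) = Sum.inr (win (Y.fo i + k)) := by
          simp only [ω, dif_neg e3]
        rw [e4]
        congr 2
        funext t
        have ht := t.isLt
        rw [blk_get _ _ _ _ (by omega)]
        simp only [Option.getD_some, win]
        congr 1
        ring
      · rw [List.getElem?_eq_none (by rw [length_blk]; omega),
          List.getElem?_eq_none (by rw [length_blk]; omega)]
  -- transport
  obtain ⟨m, ⟨e⟩⟩ := Finite.exists_equiv_fin Γ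
  have hmap : ∀ a k, (blk ω a k).map e = blk (fun i => e (ω i)) a k := by
    intro a k
    induction k generalizing a with
    | zero => rfl
    | succ k ih => rw [blk, List.map_cons, ih, blk]
  have hHne : ∀ x, H x ≠ [] := by
    intro x
    apply List.ne_nil_of_length_pos
    match x with
    | Sum.inl i =>
      simp only [H]
      rw [length_blk]
      have := Y.fo_le (Nat.le_succ (i : ℕ))
      simp only [Nat.succ_eq_add_one] at this
      omega
    | Sum.inr u =>
      simp only [H]
      rw [length_blk]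
      exact List.length_pos_of_ne_nil (Y.hne _ _)
  refine ⟨m, fun x => (H (e.symm x)).map e, e (ω 0), fun i => e (ω i), fun x => c (e.symm x),
    iterates_of_blk (fun x => (H (e.symm x)).map e) (fun i => e (ω i)) Y.fo ?_ Y.fo_zero
      (fun n hn => Y.fo_ge n hn) Y.fo_mono ?_, ?_⟩
  · intro x hx
    exact hHne (e.symm x) (List.map_eq_nil_iff.1 hx)
  · intro i
    simp only [Equiv.symm_apply_apply]
    rw [hH', hmap]
  · intro n
    show Y.lim n = c (e.symm (e (ω n)))
    rw [Equiv.symm_apply_apply, hc]

end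

/-- LEAF E. -/
theorem easyM : EasyM := by
  intro p F hF hR hH d Y hact
  exact easyM_aux Y hF hact hR hH

end Pool.Agent.W_5d512e_flt
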