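import Pool.Agent.W_5d512e_flt.Defs
import Pool.Agent.W_5d512e_dic2.Act

/-!
# The hard side, as a filter
-/

set_option autoImplicit false

namespace Pool.Agent.W_5d512e_flt

open Pool.Agent.W_MP_5d512e_h33 Pool.Agent.W_5d512e_h80 Pool.Agent.W_5d512e_alt
  Pool.Agent.W_MP_5d512e_dic Pool.Agent.W_5d512e_dic2

theorem hardF : HardF := by
  intro p k F hh p' d Y
  rcases hh with ⟨x, hx, y, hy, s, t, hst, h1, h2, h3, h4⟩ |
    ⟨e, he, f, hf, g, hg, s, t, hst, h1, h2, h3, h4⟩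
  · exact act_reset hx hy hst h1 h2 h3 h4 Y
  · exact act_swap he hf hg hst h1 h2 h3 h4 Y

end Pool.Agent.W_5d512e_flt
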