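import Pool.Agent.W_5d512e_flt.Defs

/-!
# Filters of morphic words have no sparse letter
-/

set_option autoImplicit false

namespace Pool.Agent.W_5d512e_flt

open Pool.Agent.W_MP_5d512e_h33 Pool.Agent.W_5d512e_h80 Pool.Agent.W_5d512e_alt

section morph

variable {m : ℕ} (g : Fin m → List (Fin m))

/-- The morphism on words. -/
def mor (u : List (Fin m)) : List (Fin m) := u.flatMap g

theorem trans_one :
    Pool.Agent.W_MP_5d512e_h33.trans (fun (_ : Fin 1) (_ : Fin m) => (0 : Fin 1)) 0 (fun _ x => g x) = mor g := by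
  have h : ∀ (u : List (Fin m)) (acc : Fin 1 × List (Fin m)),
      (List.foldl (fun (acc : Fin 1 × List (Fin m)) (x : Fin m) => ((0 : Fin 1), acc.2 ++ g x))
        acc u).2 = acc.2 ++ u.flatMap g := by
    intro u
    induction u with
    | nil => intro acc; simp
    | cons x u ih =>
      intro acc
      rw [List.foldl_cons, ih, List.flatMap_cons, List.append_assoc]
  funext u
  unfold Pool.Agent.W_MP_5d512e_h33.trans mor
  rw [h]
  rfl

theorem mor_append_iter (n : ℕ) (u v : List (Fin m)) :
    (mor g)^[n] (u ++ v) = (mor g)^[n] u ++ (mor g)^[n] v := by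
  induction n with
  | zero => rfl
  | succ n ih =>
    rw [Function.iterate_succ_apply', Function.iterate_succ_apply', Function.iterate_succ_apply', ih]
    exact List.flatMap_append

theorem mor_len {M : ℕ} (hM : ∀ x, (g x).length ≤ M) (u : List (Fin m)) :
    (mor g u).length ≤ M * u.length := by
  induction u with
  | nil => simp [mor]
  | cons x u ih =>
    unfold mor at ih ⊢
    rw [List.flatMap_cons, List.length_append, List.length_cons, Nat.mul_succ]
    have := hM x
    omega

theorem mor_len_iter {M : ℕ} (hM : ∀ x, (g x).length ≤ M) (k : ℕ) (u : List (Fin m)) :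
    ((mor g)^[k] u).length ≤ M ^ k * u.length := by
  induction k with
  | zero => simp
  | succ k ih =>
    rw [Function.iterate_succ_apply']
    calc (mor g ((mor g)^[k] u)).length ≤ M * ((mor g)^[k] u).length := mor_len g hM _
      _ ≤ M * (M ^ k * u.length) := Nat.mul_le_mul_left _ ih
      _ = M ^ (k + 1) * u.length := by ring

/-- In a morphic word the gaps between the letters of an infinite class are linear. -/
theorem morphic_gap {a : Fin m} {ω : ℕ → Fin m}
    (hI : Iterates (fun (_ : Fin 1) (_ : Fin m) => (0 : Fin 1)) 0 (fun _ x => g x) a ω)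
    (P : Fin m → Prop) (hinf : ∀ B : ℕ, ∃ j, B ≤ j ∧ P (ω j)) :
    ∃ K : ℕ, ∀ N : ℕ, ∃ j, N ≤ j ∧ j ≤ K * (N + 1) ∧ P (ω j) := by
  classical
  obtain ⟨-, hst, hun, hli⟩ := hI
  rw [trans_one] at hst hun hli
  obtain ⟨M0, hM0⟩ : ∃ M, ∀ x, (g x).length ≤ M :=
    ⟨Finset.univ.sup fun x => (g x).length, fun x =>
      Finset.le_sup (f := fun x => (g x).length) (Finset.mem_univ x)⟩
  set M := M0 + 1 with hMdef
  have hM : ∀ x, (g x).length ≤ M := fun x => (hM0 x).trans (Nat.le_succ _)
  obtain ⟨u, hu⟩ := hst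
  set A : ℕ → List (Fin m) := fun n => (mor g)^[n] [a] with hA
  set U : ℕ → List (Fin m) := fun n => (mor g)^[n] u with hU
  have hAU : ∀ n, A (n + 1) = A n ++ U n := by
    intro n
    show (mor g)^[n + 1] [a] = (mor g)^[n] [a] ++ (mor g)^[n] u
    rw [Function.iterate_succ_apply, ← hu, mor_append_iter]
  have hmono : Monotone fun n => (A n).length := by
    refine monotone_nat_of_le_succ fun n => ?_
    rw [hAU, List.length_append]
    exact Nat.le_add_right _ _
  have hlen : ∀ k n, (A (n + k)).length ≤ M ^ k * (A n).length := by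
    intro k n
    show ((mor g)^[n + k] [a]).length ≤ _
    rw [Nat.add_comm, Function.iterate_add_apply]
    exact mor_len_iter g hM k _
  -- the letters of the blocks
  set S : ℕ → Set (Fin m) := fun n => {y | y ∈ U n} with hS
  have hSs : ∀ n, S (n + 1) = {z | ∃ y ∈ S n, z ∈ g y} := by
    intro n
    ext z
    show z ∈ (mor g)^[n + 1] u ↔ ∃ y ∈ S n, z ∈ g y
    rw [Function.iterate_succ_apply']
    unfold mor
    rw [List.mem_flatMap]
    rfl
  obtain ⟨n0, n1, hne, heq⟩ := Finite.exists_ne_map_eq_of_infinite S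
  wlog hlt : n0 < n1 generalizing n0 n1
  · exact this n1 n0 hne.symm heq.symm (lt_of_le_of_ne (not_lt.1 hlt) hne.symm)
  obtain ⟨p, hp, rfl⟩ : ∃ p, 0 < p ∧ n1 = n0 + p := ⟨n1 - n0, by omega, by omega⟩
  have hper0 : ∀ k, S (n0 + k) = S (n0 + k + p) := by
    intro k
    induction k with
    | zero => exact heq
    | succ k ih =>
      have h1 : n0 + (k + 1) + p = (n0 + k + p) + 1 := by ring
      have h2 : n0 + (k + 1) = (n0 + k) + 1 := by ring
      rw [h1, h2, hSs, hSs, ih]
  have hper : ∀ n, n0 ≤ n → ∀ k, S (n + k * p) = S n := by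
    intro n hn k
    induction k with
    | zero => simp
    | succ k ih =>
      obtain ⟨j, hj⟩ : ∃ j, n + k * p = n0 + j := ⟨n + k * p - n0, by
        have := Nat.zero_le (k * p)
        omega⟩
      have h1 : n + (k + 1) * p = n0 + j + p := by
        rw [← hj]
        ring
      rw [h1, ← hper0, ← hj, ih]
  -- a marked letter in a block
  have hblock : ∃ r, n0 ≤ r ∧ ∃ y ∈ S r, P y := by
    obtain ⟨j, hj, hPj⟩ := hinf (A n0).length
    have hex : ∃ n, j < (A n).length := by
      obtain ⟨n, hn⟩ := hun (j + 1)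
      exact ⟨n, hn⟩
    have h1 := Nat.find_spec hex
    set n' := Nat.find hex with hn'
    have h2 : n0 < n' := by
      by_contra hcon
      have := hmono (not_lt.1 hcon)
      simp only at this
      omega
    obtain ⟨r, hr⟩ : ∃ r, n' = r + 1 := ⟨n' - 1, by omega⟩
    have h3 : (A r).length ≤ j := by
      have := Nat.find_min hex (m := r) (by omega)
      omega
    refine ⟨r, by omega, ω j, ?_, hPj⟩
    rw [hr] at h1
    have h4 : ω j = (A (r + 1))[j] := (hli (r + 1) j h1).symm
    have h1' := h1
    rw [hAU, List.length_append] at h1'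
    have h5 : (A (r + 1))[j] = (A r ++ U r)[j]'(by rw [List.length_append]; exact h1') := by
      congr 1
      exact hAU r
    show ω j ∈ U r
    rw [h4, h5, List.getElem_append_right h3]
    exact List.getElem_mem _
  obtain ⟨r, hr, y, hy, hPy⟩ := hblock
  refine ⟨M ^ (r + p + 2), fun N => ?_⟩
  have hex : ∃ n, N < (A n).length := by
    obtain ⟨n, hn⟩ := hun (N + 1)
    exact ⟨n, hn⟩
  have h1 := Nat.find_spec hex
  set n' := Nat.find hex with hn'
  have hAn : (A n').length ≤ M * (N + 1) := by
    rcases Nat.eq_zero_or_pos n' with h0 | h0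
    · rw [h0]
      show ([a] : List (Fin m)).length ≤ _
      have : 1 * 1 ≤ M * (N + 1) := Nat.mul_le_mul (by omega) (by omega)
      simpa using this
    · obtain ⟨k, hk⟩ : ∃ k, n' = k + 1 := ⟨n' - 1, by omega⟩
      have h2 := Nat.find_min hex (m := k) (by omega)
      have h3 := hlen 1 k
      rw [hk]
      refine h3.trans ?_
      rw [pow_one]
      exact Nat.mul_le_mul_left _ (by omega)
  set q := r + (n' / p + 1) * p with hq
  have hq1 : n' < q := by
    have h2 := Nat.lt_div_mul_add (a := n') hp
    have h3 : (n' / p + 1) * p = n' / p * p + p := by ring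
    omega
  have hq2 : q ≤ n' + (r + p) := by
    have h2 := Nat.div_mul_le_self n' p
    have h3 : (n' / p + 1) * p = n' / p * p + p := by ring
    omega
  have hyq : y ∈ U q := by
    have h2 : S q = S r := hper r hr _
    have h3 : y ∈ S q := by
      rw [h2]
      exact hy
    exact h3
  obtain ⟨i, hi, hiy⟩ := List.getElem_of_mem hyq
  have hj : (A q).length + i < (A (q + 1)).length := by
    rw [hAU, List.length_append]
    omega
  refine ⟨(A q).length + i, ?_, ?_, ?_⟩
  · have h2 := hmono hq1.le
    simp only at h2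
    omega
  · obtain ⟨k, hk⟩ : ∃ k, q + 1 = n' + k := ⟨q + 1 - n', by omega⟩
    have h2 := hlen k n'
    rw [← hk] at h2
    have h3 : M ^ k ≤ M ^ (r + p + 1) := Nat.pow_le_pow_right (by omega) (by omega)
    have h4 : M ^ k * (A n').length ≤ M ^ (r + p + 1) * (M * (N + 1)) := Nat.mul_le_mul h3 hAn
    have h5 : M ^ (r + p + 1) * (M * (N + 1)) = M ^ (r + p + 2) * (N + 1) := by ring
    omega
  · have h4 : ω ((A q).length + i) = (A (q + 1))[(A q).length + i] := (hli (q + 1) _ hj).symm
    have h5 : (A (q + 1))[(A q).length + i] =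
        (A q ++ U q)[(A q).length + i]'(by rw [← hAU]; exact hj) := by
      congr 1
      exact hAU q
    rw [h4, h5, List.getElem_append_right (Nat.le_add_right _ _)]
    have h6 : (U q)[(A q).length + i - (A q).length]'(by omega) = (U q)[i] := by
      congr 1
      omega
    rw [h6, hiy]
    exact hPy

end morph

section filter

variable {D d : ℕ} {W : ℕ → Fin D} {w : ℕ → Fin d} (φ : Fin D → Option (Fin d))

/-- The number of letters which survive before the position `j`. -/
def cnt (W : ℕ → Fin D) (φ : Fin D → Option (Fin d)) (j : ℕ) : ℕ :=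
  (((List.range j).map W).filterMap φ).length

theorem fm_succ (W : ℕ → Fin D) (j : ℕ) :
    ((List.range (j + 1)).map W).filterMap φ =
      ((List.range j).map W).filterMap φ ++ (φ (W j)).toList := by
  rw [List.range_succ, List.map_append, List.filterMap_append]
  congr 1

theorem cnt_succ (W : ℕ → Fin D) (j : ℕ) :
    cnt W φ (j + 1) = cnt W φ j + (φ (W j)).toList.length := by
  unfold cnt
  rw [fm_succ, List.length_append]

theorem cnt_mono (W : ℕ → Fin D) : Monotone (cnt W φ) :=
  monotone_nat_of_le_succ fun j => by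
    rw [cnt_succ]
    exact Nat.le_add_right _ _

theorem cnt_le (W : ℕ → Fin D) (j : ℕ) : cnt W φ j ≤ j := by
  induction j with
  | zero => simp [cnt]
  | succ j ih =>
    rw [cnt_succ]
    have : (φ (W j)).toList.length ≤ 1 := by cases φ (W j) <;> simp
    omega

theorem val_cnt (h1 : ∀ (N i : ℕ) (h : i < (((List.range N).map W).filterMap φ).length),
      (((List.range N).map W).filterMap φ)[i] = w i) {j : ℕ} {y : Fin d}
    (hy : φ (W j) = some y) : w (cnt W φ j) = y := by
  have h2 : cnt W φ j < (((List.range (j + 1)).map W).filterMap φ).length := by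
    have := cnt_succ φ W j
    rw [hy] at this
    unfold cnt at this ⊢
    rw [this]
    simp
  rw [← h1 (j + 1) _ h2]
  have h3 : (((List.range (j + 1)).map W).filterMap φ)[cnt W φ j] =
      (((List.range j).map W).filterMap φ ++ (φ (W j)).toList)[cnt W φ j]'(by
        rw [← fm_succ]; exact h2) := by
    congr 1
    exact fm_succ φ W j
  rw [h3, List.getElem_append_right
    (show (((List.range j).map W).filterMap φ).length ≤ cnt W φ j from le_rfl)]
  simp [hy, cnt]

theorem noSparse : NoSparse := by
  classical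
  rintro D d W w x ⟨m, g, a, ω, c, hI, hW⟩ ⟨φ, C, h1, h2⟩ ⟨hinf, hgap⟩
  -- the marked letters of `ω`
  have hinf' : ∀ B : ℕ, ∃ j, B ≤ j ∧ φ (c (ω j)) = some x := by
    intro B
    obtain ⟨i, hi, hix⟩ := hinf B
    have hex : ∃ j, i < cnt W φ (j + 1) := by
      refine ⟨C * (i + 1 + 1) ^ C, ?_⟩
      have h3 := h2 (i + 1)
      have h4 := cnt_mono φ W (Nat.le_succ (C * (i + 1 + 1) ^ C))
      have h5 : i + 1 ≤ cnt W φ (C * (i + 1 + 1) ^ C) := h3
      have h6 : cnt W φ (C * (i + 1 + 1) ^ C) ≤ cnt W φ (C * (i + 1 + 1) ^ C + 1) := h4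
      omega
    have h3 := Nat.find_spec hex
    set j := Nat.find hex with hj
    have h4 : cnt W φ j ≤ i := by
      rcases Nat.eq_zero_or_pos j with h0 | h0
      · rw [h0]
        simp [cnt]
      · obtain ⟨k, hk⟩ : ∃ k, j = k + 1 := ⟨j - 1, by omega⟩
        have := Nat.find_min hex (m := k) (by omega)
        rw [hk]
        omega
    have h5 := cnt_succ φ W j
    cases hφ : φ (W j) with
    | none =>
      rw [hφ] at h5
      simp at h5
      omega
    | some y =>
      rw [hφ] at h5
      simp at h5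
      have h6 : cnt W φ j = i := by omega
      have h7 := val_cnt φ h1 hφ
      rw [h6, hix] at h7
      refine ⟨j, ?_, ?_⟩
      · have := cnt_le φ W j
        omega
      · rw [← hW, hφ, h7]
  obtain ⟨K, hK⟩ := morphic_gap g hI (fun y => φ (c y) = some x) hinf'
  obtain ⟨N, hN⟩ := hgap (K * (C + 1) + K + C)
  obtain ⟨j, hj1, hj2, hj3⟩ := hK (C * (N + 1) ^ C)
  have h3 : φ (W j) = some x := by
    rw [hW]
    exact hj3
  have h4 := val_cnt φ h1 h3
  refine hN (cnt W φ j) ?_ ?_ h4
  · have h5 : N ≤ cnt W φ (C * (N + 1) ^ C) := h2 N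
    exact h5.trans (cnt_mono φ W hj1)
  · refine (cnt_le φ W j).trans (hj2.trans ?_)
    have h6 : 1 ≤ (N + 1) ^ C := Nat.one_le_pow _ _ (by omega)
    have h7 : C * (N + 1) ^ C + 1 ≤ (C + 1) * (N + 1) ^ C := by
      have : (C + 1) * (N + 1) ^ C = C * (N + 1) ^ C + (N + 1) ^ C := by ring
      omega
    calc K * (C * (N + 1) ^ C + 1) ≤ K * ((C + 1) * (N + 1) ^ C) := Nat.mul_le_mul_left _ h7
      _ = K * (C + 1) * (N + 1) ^ C := by ring
      _ ≤ (K * (C + 1) + K + C) * (N + 1) ^ (K * (C + 1) + K + C) :=
        Nat.mul_le_mul (by omega) (Nat.pow_le_pow_right (by omega) (by omega))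

end filter

end Pool.Agent.W_5d512e_flt
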