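import Pool.Agent.W_5d512e_flt.Easy
import Pool.Agent.W_5d512e_flt.Hard
import Pool.Agent.W_5d512e_flt.NoSp73
import Pool.Agent.W_5d512e_flt.Tower83
import Pool.Agent.W_5d512e_dic2.Fin

/-!
# The dichotomy: morphic words, or all polynomial time words
-/

set_option autoImplicit false

namespace Pool.Agent.W_5d512e_flt

open Pool.Agent.W_MP_5d512e_h33 Pool.Agent.W_5d512e_h80 Pool.Agent.W_5d512e_alt
  Pool.Agent.W_MP_5d512e_dic Pool.Agent.W_5d512e_dic2

/-- Outputs that do not depend on the state. -/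
lemma trans_const {p m : ℕ} (δ : Fin p → Fin m → Fin p) (q0 : Fin p)
    (g : Fin m → List (Fin m)) (u : List (Fin m)) :
    Pool.Agent.W_MP_5d512e_h33.trans δ q0 (fun _ x => g x) u = u.flatMap g := by
  have key : ∀ (u : List (Fin m)) (q : Fin p) (acc : List (Fin m)),
      (List.foldl (fun (acc : Fin p × List (Fin m)) (x : Fin m) =>
        (δ acc.1 x, acc.2 ++ g x)) (q, acc) u).2 = acc ++ u.flatMap g := by
    intro u
    induction u with
    | nil => intro q acc; simp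
    | cons x u ih =>
      intro q acc
      rw [List.foldl_cons, ih, List.flatMap_cons, List.append_assoc]
  have := key u q0 []
  rw [List.nil_append] at this
  exact this

lemma iterates_const {p p' m : ℕ} {δ : Fin p → Fin m → Fin p} {q0 : Fin p}
    {g : Fin m → List (Fin m)} {a : Fin m} {ω : ℕ → Fin m} (δ' : Fin p' → Fin m → Fin p')
    (q' : Fin p') (h : Iterates δ q0 (fun _ x => g x) a ω) :
    Iterates δ' q' (fun _ x => g x) a ω := by
  have e : Pool.Agent.W_MP_5d512e_h33.trans δ q0 (fun _ x => g x) =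
      Pool.Agent.W_MP_5d512e_h33.trans δ' q' (fun _ x => g x) := by
    funext u
    rw [trans_const, trans_const]
  obtain ⟨h1, h2, h3, h4⟩ := h
  rw [e] at h2
  refine ⟨fun _ x => h1 q0 x, h2, fun N => ?_, ?_⟩
  · obtain ⟨n, hn⟩ := h3 N
    rw [e] at hn
    exact ⟨n, hn⟩
  · rw [e] at h4
    exact h4

/-- The main theorem. -/
theorem main (p k : ℕ) (F : Set (Fin p → Fin p)) (hF : ∀ f ∈ F, ∀ g ∈ F, f ∘ g ∈ F) :
    (HasReset F ∨ HasSwap F →
      (∀ (d : ℕ) (w : ℕ → Fin d), PolyTime w ↔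
        ∃ (D : ℕ) (δ : Fin p → Fin D → Fin p) (q0 : Fin p)
          (out : Fin p → Fin D → List (Fin D)) (a : Fin D) (W : ℕ → Fin D),
          Iterates δ q0 out a W ∧ (∀ x, (fun s => δ s x) ∈ F) ∧
          (∀ s x, (out s x).length ≤ 2) ∧
          (∃ C, ∀ n, ((trans δ q0 out)^[n] [a]).length ^ k ≤ C * (n + 1) ^ (k + 1)) ∧
          FilterOf W w) ∧
      ((∀ (d p : ℕ) (δ : Fin p → Fin d → Fin p) (q0 : Fin p)
        (out : Fin p → Fin d → List (Fin d)) (a : Fin d) (w : ℕ → Fin d),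
        Iterates δ q0 out a w → LogSpace w) ↔
      (∀ (d : ℕ) (δ : Fin p → Fin d → Fin p) (q0 : Fin p)
        (out : Fin p → Fin d → List (Fin d)) (a : Fin d) (w : ℕ → Fin d),
        Iterates δ q0 out a w → (∀ x, (fun s => δ s x) ∈ F) →
        (∀ s x, (out s x).length ≤ 2) →
        (∃ C, ∀ n, ((trans δ q0 out)^[n] [a]).length ^ k ≤ C * (n + 1) ^ (k + 1)) →
        LogSpace w)) ∧
      ∃ (d : ℕ) (δ : Fin p → Fin d → Fin p) (q0 : Fin p)
        (out : Fin p → Fin d → List (Fin d)) (a : Fin d) (w : ℕ → Fin d),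
        Iterates δ q0 out a w ∧ (∀ x, (fun s => δ s x) ∈ F) ∧
        (∀ s x, (out s x).length ≤ 2) ∧
        (∃ C, ∀ n, ((trans δ q0 out)^[n] [a]).length ^ k ≤ C * (n + 1) ^ (k + 1)) ∧
        ¬ Morphic w) ∧
    (¬ (HasReset F ∨ HasSwap F) →
      (∀ (d : ℕ) (δ : Fin p → Fin d → Fin p) (q0 : Fin p)
        (out : Fin p → Fin d → List (Fin d)) (a : Fin d) (w : ℕ → Fin d),
        Iterates δ q0 out a w → (∀ x, (fun s => δ s x) ∈ F) → Morphic w ∧ LogSpace w) ∧
      (F.Nonempty → 0 < p → ∀ (d : ℕ) (w : ℕ → Fin d), Morphic w ↔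
        ∃ (D : ℕ) (δ : Fin p → Fin D → Fin p) (q0 : Fin p)
          (out : Fin p → Fin D → List (Fin D)) (a : Fin D) (W : ℕ → Fin D) (c : Fin D → Fin d),
          Iterates δ q0 out a W ∧ (∀ x, (fun s => δ s x) ∈ F) ∧ ∀ n, w n = c (W n)) ∧
      ∃ (d : ℕ) (w : ℕ → Fin d), PolyTime w ∧
        ∀ (D : ℕ) (δ : Fin p → Fin D → Fin p) (q0 : Fin p)
          (out : Fin p → Fin D → List (Fin D)) (a : Fin D) (W : ℕ → Fin D),
          Iterates δ q0 out a W → (∀ x, (fun s => δ s x) ∈ F) → ¬ FilterOf W w) := by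
  obtain ⟨M1, M2⟩ := Pool.Agent.W_5d512e_dic2.main p k F hF
  constructor
  · intro hh
    obtain ⟨h1, h2⟩ := M1 hh
    refine ⟨h1, h2, ?_⟩
    obtain ⟨p', d, Y, x, hsp⟩ := hasSparse83
    obtain ⟨D, δ, q0, out, a, W, e1, e2, e3, e4, e5⟩ := (h1 d Y.lim).1 (polyTime_lim Y)
    exact ⟨D, δ, q0, out, a, W, e1, e2, e3, e4, fun hM => noSparse D d W Y.lim x hM e5 hsp⟩
  · intro hh
    have hmor : ∀ (d : ℕ) (δ : Fin p → Fin d → Fin p) (q0 : Fin p)
        (out : Fin p → Fin d → List (Fin d)) (a : Fin d) (w : ℕ → Fin d),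
        Iterates δ q0 out a w → (∀ x, (fun s => δ s x) ∈ F) → Morphic w := by
      intro d δ q0 out a w hI hact
      rw [not_or] at hh
      obtain ⟨Y, hY, hw⟩ := exists_sys hI
      rw [← hw]
      exact easyM p F hF hh.1 hh.2 d Y (by rw [hY]; exact hact)
    refine ⟨fun d δ q0 out a w hI hact => ⟨hmor d δ q0 out a w hI hact,
      (M2 hh d δ q0 out a w hI hact).1⟩, ?_, ?_⟩
    · rintro ⟨f, hf⟩ hp d w
      constructor
      · rintro ⟨m, g, a, ω, c, hI, hc⟩
        exact ⟨m, fun s _ => f s, ⟨0, hp⟩, fun _ x => g x, a, ω, c,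
          iterates_const _ _ hI, fun _ => hf, hc⟩
      · rintro ⟨D, δ, q0, out, a, W, c, hI, hact, hc⟩
        obtain ⟨m, g, a', ω, c', hI', hc'⟩ := hmor D δ q0 out a W hI hact
        exact ⟨m, g, a', ω, fun y => c (c' y), hI', fun n => by rw [hc, hc']⟩
    · obtain ⟨p', d, Y, x, hsp⟩ := hasSparse83
      refine ⟨d, Y.lim, polyTime_lim Y, fun D δ q0 out a W hI hact hf => ?_⟩
      exact noSparse D d W Y.lim x (hmor D δ q0 out a W hI hact) hf hsp

end Pool.Agent.W_5d512e_flt
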