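import Pool.Agent.W_5d512e_flt.NoSp73
import Pool.Agent.W_5d512e_post.ADefs

/-!
# Gaps of semilinear sets and of sets with finite kernels
-/

set_option autoImplicit false

namespace Pool.Agent.W_5d512e_flt

open Pool.Agent.W_MP_5d512e_h33 Pool.Agent.W_5d512e_h80 Pool.Agent.W_5d512e_alt

/-- An infinite set has linear gaps. -/
def Gp (A : Set (ℕ × ℕ)) : Prop :=
  A.Infinite → ∃ K : ℕ, ∀ N : ℕ, ∃ x ∈ A, N ≤ x.1 + x.2 ∧ x.1 + x.2 ≤ K * (N + 1)

theorem gp_semi {A : Set (ℕ × ℕ)} (h : IsSemilinearSet A) : Gp A := by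
  intro hinf
  rw [isSemilinearSet_iff] at h
  obtain ⟨S, hS, rfl⟩ := h
  have h1 : ∃ s ∈ S, s.Infinite := by
    by_contra hcon
    push Not at hcon
    exact hinf (S.finite_toSet.sUnion hcon)
  obtain ⟨s, hs, hsi⟩ := h1
  obtain ⟨a, t, hst⟩ := isLinearSet_iff.1 (hS s hs)
  have h2 : ∃ g ∈ t, g ≠ 0 := by
    by_contra hcon
    push Not at hcon
    refine hsi ?_
    have h3 : AddSubmonoid.closure (t : Set (ℕ × ℕ)) = ⊥ := by
      refine le_antisymm (AddSubmonoid.closure_le.2 fun g hg => ?_) bot_le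
      exact hcon g hg
    rw [hst, h3]
    exact (Set.finite_singleton (0 : ℕ × ℕ)).vadd_set
  obtain ⟨g, hg, hg0⟩ := h2
  have hg1 : 1 ≤ g.1 + g.2 := by
    by_contra hcon
    refine hg0 (Prod.ext ?_ ?_)
    · show g.1 = 0
      omega
    · show g.2 = 0
      omega
  refine ⟨a.1 + a.2 + (g.1 + g.2), fun N => ⟨a + N • g, ?_, ?_, ?_⟩⟩
  · refine Set.mem_sUnion.2 ⟨s, hs, ?_⟩
    rw [hst]
    refine Set.mem_vadd_set.2 ⟨N • g, ?_, rfl⟩
    exact AddSubmonoid.nsmul_mem _ (AddSubmonoid.subset_closure hg) N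
  · have h3 : (a + N • g).1 + (a + N • g).2 = a.1 + a.2 + N * (g.1 + g.2) := by
      simp only [Prod.fst_add, Prod.snd_add, Prod.smul_fst, Prod.smul_snd, smul_eq_mul]
      ring
    rw [h3]
    have h4 : N * 1 ≤ N * (g.1 + g.2) := Nat.mul_le_mul_left _ hg1
    omega
  · have h3 : (a + N • g).1 + (a + N • g).2 = a.1 + a.2 + N * (g.1 + g.2) := by
      simp only [Prod.fst_add, Prod.snd_add, Prod.smul_fst, Prod.smul_snd, smul_eq_mul]
      ring
    rw [h3]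
    nlinarith [Nat.zero_le (N * (a.1 + a.2))]

/-- Decimation. -/
def dec (r s : ℕ) (A : Set (ℕ × ℕ)) : Set (ℕ × ℕ) := {x | (2 * x.1 + r, 2 * x.2 + s) ∈ A}

theorem infinite_dec {A : Set (ℕ × ℕ)} (hA : A.Infinite) :
    ∃ r < 2, ∃ s < 2, (dec r s A).Infinite := by
  by_contra hcon
  push Not at hcon
  refine hA ?_
  have h1 : A ⊆ ⋃ r ∈ Set.Iio 2, ⋃ s ∈ Set.Iio 2,
      (fun x : ℕ × ℕ => (2 * x.1 + r, 2 * x.2 + s)) '' (dec r s A) := by
    rintro ⟨p, j⟩ hx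
    simp only [Set.mem_iUnion]
    refine ⟨p % 2, Nat.mod_lt _ (by norm_num), j % 2, Nat.mod_lt _ (by norm_num),
      (p / 2, j / 2), ?_, ?_⟩
    · show (2 * (p / 2) + p % 2, 2 * (j / 2) + j % 2) ∈ A
      rw [Nat.div_add_mod, Nat.div_add_mod]
      exact hx
    · show (2 * (p / 2) + p % 2, 2 * (j / 2) + j % 2) = (p, j)
      rw [Nat.div_add_mod, Nat.div_add_mod]
  refine Set.Finite.subset ?_ h1
  refine Set.Finite.biUnion (Set.finite_Iio 2) fun r hr => ?_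
  refine Set.Finite.biUnion (Set.finite_Iio 2) fun s hs => ?_
  exact (hcon r hr s hs).image _

theorem gp_dec {Φ : Set (Set (ℕ × ℕ))} (hΦ : Φ.Finite)
    (hc : ∀ A ∈ Φ, ∀ r < 2, ∀ s < 2, dec r s A ∈ Φ) {A : Set (ℕ × ℕ)} (hA : A ∈ Φ) : Gp A := by
  intro hinf
  have h0 : ∀ B : Set (ℕ × ℕ), ∃ S : ℕ, B.Infinite → ∃ x ∈ B, 1 ≤ x.1 + x.2 ∧ x.1 + x.2 ≤ S := by
    intro B
    by_cases hB : B.Infinite
    · obtain ⟨x, hx, hx0⟩ := hB.exists_notMem_finite (Set.finite_singleton (0 : ℕ × ℕ))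
      refine ⟨x.1 + x.2, fun _ => ⟨x, hx, ?_, le_rfl⟩⟩
      by_contra hcon
      refine hx0 (Set.mem_singleton_iff.2 (Prod.ext ?_ ?_))
      · show x.1 = 0
        omega
      · show x.2 = 0
        omega
    · exact ⟨0, fun h => absurd h hB⟩
  choose f hf using h0
  obtain ⟨S, hS⟩ := (hΦ.image f).bddAbove
  have h1 : ∀ B ∈ Φ, B.Infinite → ∃ x ∈ B, 1 ≤ x.1 + x.2 ∧ x.1 + x.2 ≤ S := by
    intro B hB hBi
    obtain ⟨x, hx, hx1, hx2⟩ := hf B hBi
    exact ⟨x, hx, hx1, hx2.trans (hS ⟨B, hB, rfl⟩)⟩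
  have h2 : ∀ l : ℕ, ∃ B ∈ Φ, B.Infinite ∧ ∃ r s : ℕ, r < 2 ^ l ∧ s < 2 ^ l ∧
      ∀ x ∈ B, (2 ^ l * x.1 + r, 2 ^ l * x.2 + s) ∈ A := by
    intro l
    induction l with
    | zero =>
      refine ⟨A, hA, hinf, 0, 0, by norm_num, by norm_num, fun x hx => ?_⟩
      simpa using hx
    | succ l ih =>
      obtain ⟨B, hB, hBi, r, s, hr, hs, hx⟩ := ih
      obtain ⟨r', hr', s', hs', hi⟩ := infinite_dec hBi
      refine ⟨dec r' s' B, hc B hB r' hr' s' hs', hi, 2 ^ l * r' + r, 2 ^ l * s' + s, ?_, ?_,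
        fun x hxd => ?_⟩
      · have : 2 ^ l * r' ≤ 2 ^ l * 1 := Nat.mul_le_mul_left _ (by omega)
        rw [pow_succ]
        omega
      · have : 2 ^ l * s' ≤ 2 ^ l * 1 := Nat.mul_le_mul_left _ (by omega)
        rw [pow_succ]
        omega
      · have h3 := hx (2 * x.1 + r', 2 * x.2 + s') hxd
        have e1 : 2 ^ l * (2 * x.1 + r') + r = 2 ^ (l + 1) * x.1 + (2 ^ l * r' + r) := by ring
        have e2 : 2 ^ l * (2 * x.2 + s') + s = 2 ^ (l + 1) * x.2 + (2 ^ l * s' + s) := by ring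
        simp only at h3
        rw [e1, e2] at h3
        exact h3
  refine ⟨2 * (S + 2), fun N => ?_⟩
  -- a power of two
  set l := Nat.log 2 (N + 1) + 1 with hl
  have hl1 : N + 1 < 2 ^ l := Nat.lt_pow_succ_log_self (by norm_num) _
  have hl2 : 2 ^ l ≤ 2 * (N + 1) := by
    rw [hl, pow_succ, mul_comm]
    exact Nat.mul_le_mul_left _ (Nat.pow_log_le_self 2 (by omega))
  obtain ⟨B, hB, hBi, r, s, hr, hs, hx⟩ := h2 l
  obtain ⟨x, hxB, hx1, hx2⟩ := h1 B hB hBi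
  refine ⟨_, hx x hxB, ?_, ?_⟩
  · show N ≤ 2 ^ l * x.1 + r + (2 ^ l * x.2 + s)
    have h3 : 2 ^ l * 1 ≤ 2 ^ l * (x.1 + x.2) := Nat.mul_le_mul_left _ hx1
    have h4 : 2 ^ l * (x.1 + x.2) = 2 ^ l * x.1 + 2 ^ l * x.2 := by ring
    omega
  · show 2 ^ l * x.1 + r + (2 ^ l * x.2 + s) ≤ 2 * (S + 2) * (N + 1)
    have h3 : 2 ^ l * (x.1 + x.2) ≤ 2 ^ l * S := Nat.mul_le_mul_left _ hx2
    have h4 : 2 ^ l * (x.1 + x.2) = 2 ^ l * x.1 + 2 ^ l * x.2 := by ring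
    have h5 : 2 ^ l * (S + 2) ≤ 2 * (N + 1) * (S + 2) := Nat.mul_le_mul_right _ hl2
    have h6 : 2 ^ l * (S + 2) = 2 ^ l * S + 2 ^ l + 2 ^ l := by ring
    have h7 : 2 * (N + 1) * (S + 2) = 2 * (S + 2) * (N + 1) := by ring
    omega

/-- If every infinite class of letters of `W` has polynomial gaps, no filter of `W` has a sparse
letter. -/
theorem noSparse_of_gap {D d : ℕ} {W : ℕ → Fin D} {w : ℕ → Fin d} {x : Fin d}
    (hW : ∀ P : Fin D → Prop, (∀ B : ℕ, ∃ j, B ≤ j ∧ P (W j)) →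
      ∃ K : ℕ, ∀ N : ℕ, ∃ j, N ≤ j ∧ j ≤ K * (N + 1) ^ K ∧ P (W j))
    (hf : FilterOf W w) : ¬ Sparse w x := by
  classical
  obtain ⟨φ, C, h1, h2⟩ := hf
  rintro ⟨hinf, hgap⟩
  have hinf' : ∀ B : ℕ, ∃ j, B ≤ j ∧ φ (W j) = some x := by
    intro B
    obtain ⟨i, hi, hix⟩ := hinf B
    have hex : ∃ j, i < cnt W φ (j + 1) := by
      refine ⟨C * (i + 1 + 1) ^ C, ?_⟩
      have h3 := h2 (i + 1)
      have h4 := cnt_mono φ W (Nat.le_succ (C * (i + 1 + 1) ^ C))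
      have h5 : i + 1 ≤ cnt W φ (C * (i + 1 + 1) ^ C) := h3
      have h6 : cnt W φ (C * (i + 1 + 1) ^ C) ≤ cnt W φ (C * (i + 1 + 1) ^ C + 1) := h4
      omega
    have h3 := Nat.find_spec hex
    set j := Nat.find hex with hj
    have h4 : cnt W φ j ≤ i := by
      rcases Nat.eq_zero_or_pos j with h0 | h0
      · rw [h0]
        simp [cnt]
      · obtain ⟨k, hk⟩ : ∃ k, j = k + 1 := ⟨j - 1, by omega⟩
        have := Nat.find_min hex (m := k) (by omega)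
        rw [hk]
        omega
    have h5 := cnt_succ φ W j
    cases hφ : φ (W j) with
    | none =>
      rw [hφ] at h5
      simp at h5
      omega
    | some y =>
      rw [hφ] at h5
      simp at h5
      have h6 : cnt W φ j = i := by omega
      have h7 := val_cnt φ h1 hφ
      rw [h6, hix] at h7
      refine ⟨j, ?_, ?_⟩
      · have := cnt_le φ W j
        omega
      · rw [hφ, h7]
  obtain ⟨K, hK⟩ := hW (fun y => φ y = some x) hinf'
  obtain ⟨N, hN⟩ := hgap (K * (C + 1) ^ K + C * K)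
  obtain ⟨j, hj1, hj2, hj3⟩ := hK (C * (N + 1) ^ C)
  have h4 := val_cnt φ h1 hj3
  refine hN (cnt W φ j) ?_ ?_ h4
  · have h5 : N ≤ cnt W φ (C * (N + 1) ^ C) := h2 N
    exact h5.trans (cnt_mono φ W hj1)
  · refine (cnt_le φ W j).trans (hj2.trans ?_)
    have h6 : 1 ≤ (N + 1) ^ C := Nat.one_le_pow _ _ (by omega)
    have h7 : C * (N + 1) ^ C + 1 ≤ (C + 1) * (N + 1) ^ C := by
      have : (C + 1) * (N + 1) ^ C = C * (N + 1) ^ C + (N + 1) ^ C := by ring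
      omega
    calc K * (C * (N + 1) ^ C + 1) ^ K
        ≤ K * ((C + 1) * (N + 1) ^ C) ^ K :=
          Nat.mul_le_mul_left _ (Nat.pow_le_pow_left h7 K)
      _ = K * (C + 1) ^ K * (N + 1) ^ (C * K) := by
          rw [mul_pow, ← pow_mul, mul_assoc]
      _ ≤ (K * (C + 1) ^ K + C * K) * (N + 1) ^ (K * (C + 1) ^ K + C * K) :=
        Nat.mul_le_mul (by omega) (Nat.pow_le_pow_right (by omega) (by omega))

end Pool.Agent.W_5d512e_flt
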